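import Mathlib

/-!
# Two-piece cube dissections for Pythagorean triples

A polyomino which folds onto the cube of edge `c` and which is divided into two polyominoes folding
onto the cubes of edges `a` and `b`, for infinitely many Pythagorean triples `(a, b, c)`.
-/

set_option autoImplicit false
set_option maxRecDepth 100000

namespace Pool.Agent.Results.MP_4a7072_co.TwoPiece

/-! ## Definitions -/

/-- The cell `(x, y)` stands for the unit square `[x, x + 1] × [y, y + 1]` of the grid. -/
abbrev Cell := ℤ × ℤ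

/-- Lattice points and lattice vectors in space. -/
abbrev Vec := ℤ × ℤ × ℤ

/-- Two cells are adjacent if they have a common unit edge. -/
def Adjacent (c d : Cell) : Prop :=
  (d.2 = c.2 ∧ (d.1 = c.1 + 1 ∨ c.1 = d.1 + 1)) ∨ (d.1 = c.1 ∧ (d.2 = c.2 + 1 ∨ c.2 = d.2 + 1))

/-- Any two cells of `S` are joined by a path of cells of `S` in which consecutive cells are
adjacent. -/
def EdgeConnected (S : Set Cell) : Prop :=
  ∀ c ∈ S, ∀ d ∈ S, Relation.ReflTransGen (fun c d => c ∈ S ∧ d ∈ S ∧ Adjacent c d) c d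

/-- `P` is a (simply connected) polyomino: it is nonempty and edge-connected, two cells of `P`
which touch at a corner only are both adjacent to a third cell of `P`, and the complement of `P` is
edge-connected.  So the union of the squares of `P` is a simple polygon (without holes). -/
def IsPolyomino (P : Finset Cell) : Prop :=
  P.Nonempty ∧ EdgeConnected (P : Set Cell) ∧
  (∀ x y : ℤ, (x, y) ∈ P → (x + 1, y + 1) ∈ P → (x + 1, y) ∈ P ∨ (x, y + 1) ∈ P) ∧
  (∀ x y : ℤ, (x + 1, y) ∈ P → (x, y + 1) ∈ P → (x, y) ∈ P ∨ (x + 1, y + 1) ∈ P) ∧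
  EdgeConnected {c | c ∉ P}

/-- A placement of the unit square `[x, x + 1] × [y, y + 1]` in space: the point
`(x + s, y + t)` is placed at `p + s u + t v`. -/
structure Placement where
  /-- the position of the lower left corner `(x, y)` -/
  p : Vec
  /-- the image of the unit vector `(1, 0)` -/
  u : Vec
  /-- the image of the unit vector `(0, 1)` -/
  v : Vec
  deriving DecidableEq

/-- The six lattice vectors of length one. -/
def unitVectors : List Vec :=
  [(1, 0, 0), (-1, 0, 0), (0, 1, 0), (0, -1, 0), (0, 0, 1), (0, 0, -1)]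

/-- The placement is isometric: `u` and `v` are orthogonal unit vectors. -/
def Placement.Isometric (t : Placement) : Prop :=
  t.u ∈ unitVectors ∧ t.v ∈ unitVectors ∧ t.v ≠ t.u ∧ t.v ≠ -t.u

/-- Twice the centre of the placed unit square, `2 p + u + v`. -/
def Placement.center (t : Placement) : Vec :=
  (2 * t.p.1 + t.u.1 + t.v.1, 2 * t.p.2.1 + t.u.2.1 + t.v.2.1, 2 * t.p.2.2 + t.u.2.2 + t.v.2.2)

/-- `t` is twice an end point of the interval `[0, n]`. -/
def IsEnd (n : ℕ) (t : ℤ) : Prop := t = 0 ∨ t = 2 * n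

/-- `t` is twice the midpoint of one of the `n` unit intervals into which `[0, n]` is divided. -/
def IsMid (n : ℕ) (t : ℤ) : Prop := 0 < t ∧ t < 2 * n ∧ t % 2 = 1

/-- `s` is twice the centre of one of the `6 n²` unit squares into which the surface of the cube
`[0, n]³` is divided by the grid.  (An isometrically placed unit square is equal to the unit square
of the surface which has the same centre: its sides are parallel to the axes, and the coordinates
in which twice the centre is odd are the directions of `u` and `v`.) -/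
def IsSurfaceCenter (n : ℕ) (s : Vec) : Prop :=
  (IsEnd n s.1 ∧ IsMid n s.2.1 ∧ IsMid n s.2.2) ∨ (IsMid n s.1 ∧ IsEnd n s.2.1 ∧ IsMid n s.2.2) ∨
  (IsMid n s.1 ∧ IsMid n s.2.1 ∧ IsEnd n s.2.2)

/-- `f` is a folding of the polyomino `P` onto the surface of the cube `[0, n]³`, along grid
edges.  Every cell of `P` is placed isometrically on a unit square of the surface, two adjacent
cells of `P` stay attached along their common edge, different cells are placed on different unit
squares of the surface, and every unit square of the surface is covered.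

For two horizontally adjacent cells the vector `v` (the direction of the common edge) is the same
and the fold angle at the common edge is zero if the vectors `u` are equal; otherwise, since
`u' ≠ -u`, the two vectors `u` are orthogonal and the fold angle is `±90°`.  Similarly for vertically
adjacent cells. -/
structure IsFolding (P : Finset Cell) (n : ℕ) (f : Cell → Placement) : Prop where
  isometric : ∀ q ∈ P, (f q).Isometric
  surface : ∀ q ∈ P, IsSurfaceCenter n (f q).center
  right : ∀ x y : ℤ, (x, y) ∈ P → (x + 1, y) ∈ P →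
    (f (x + 1, y)).p = (f (x, y)).p + (f (x, y)).u ∧ (f (x + 1, y)).v = (f (x, y)).v ∧
    (f (x + 1, y)).u ≠ -(f (x, y)).u
  up : ∀ x y : ℤ, (x, y) ∈ P → (x, y + 1) ∈ P →
    (f (x, y + 1)).p = (f (x, y)).p + (f (x, y)).v ∧ (f (x, y + 1)).u = (f (x, y)).u ∧
    (f (x, y + 1)).v ≠ -(f (x, y)).v
  injective : ∀ q ∈ P, ∀ r ∈ P, (f q).center = (f r).center → q = r
  cover : ∀ s, IsSurfaceCenter n s → ∃ q ∈ P, (f q).center = s

/-- The polyomino `P` folds onto the surface of the cube of edge `n`. -/
def FoldsToCube (P : Finset Cell) (n : ℕ) : Prop := ∃ f, IsFolding P n f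

/-- There is a polyomino `Pc` which folds onto the surface of the cube of edge `c` and which is
divided into two polyominoes `Pa` and `Pb`, where `Pa` folds onto the surface of the cube of edge
`a` and `Pb` folds onto the surface of the cube of edge `b`. -/
def TwoPiece (a b c : ℕ) : Prop :=
  ∃ Pa Pb Pc : Finset Cell, IsPolyomino Pa ∧ IsPolyomino Pb ∧ IsPolyomino Pc ∧
    Disjoint Pa Pb ∧ Pa ∪ Pb = Pc ∧ FoldsToCube Pa a ∧ FoldsToCube Pb b ∧ FoldsToCube Pc c

/-! ## Paths of cells -/

/-- Reachability by edge-connected paths in `S`. -/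
abbrev Reach (S : Set Cell) : Cell → Cell → Prop :=
  Relation.ReflTransGen (fun c d => c ∈ S ∧ d ∈ S ∧ Adjacent c d)

theorem Adjacent.symm {c d : Cell} (h : Adjacent c d) : Adjacent d c := by
  unfold Adjacent at *; omega

theorem Reach.symm {S : Set Cell} {c d : Cell} (h : Reach S c d) : Reach S d c := by
  induction h with
  | refl => exact Relation.ReflTransGen.refl
  | tail _ h ih => exact Relation.ReflTransGen.head ⟨h.2.1, h.1, h.2.2.symm⟩ ih

/-! ## Scaling -/

theorem div_block {m : ℕ} (hm : 0 < m) (X r : ℤ) (h0 : 0 ≤ r) (h1 : r < m) :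
    ((m : ℤ) * X + r) / m = X := by
  rw [add_comm, Int.add_mul_ediv_left _ _ (by omega), Int.ediv_eq_zero_of_lt h0 h1, zero_add]

theorem mod_block {m : ℕ} (X r : ℤ) (h0 : 0 ≤ r) (h1 : r < m) :
    ((m : ℤ) * X + r) % m = r := by
  rw [add_comm, Int.add_mul_emod_self_left, Int.emod_eq_of_lt h0 h1]

theorem succ_cases {m : ℕ} (hm : 0 < m) (x : ℤ) :
    (x % m + 1 < m ∧ (x + 1) / m = x / m ∧ (x + 1) % m = x % m + 1) ∨
    (x % m + 1 = m ∧ (x + 1) / m = x / m + 1 ∧ (x + 1) % m = 0) := by
  have h := Int.mul_ediv_add_emod x m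
  have h0 := Int.emod_nonneg x (show (m : ℤ) ≠ 0 by omega)
  have h1 := Int.emod_lt_of_pos x (show (0 : ℤ) < m by omega)
  by_cases hc : x % m + 1 < m
  · left
    have hx : x + 1 = (m : ℤ) * (x / m) + (x % m + 1) := by linarith
    refine ⟨hc, ?_, ?_⟩
    · conv_lhs => rw [hx]
      exact div_block hm _ _ (by omega) hc
    · conv_lhs => rw [hx]
      exact mod_block _ _ (by omega) hc
  · right
    have he : x % m + 1 = m := by omega
    have hx : x + 1 = (m : ℤ) * (x / m + 1) + 0 := by linarith
    refine ⟨he, ?_, ?_⟩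
    · conv_lhs => rw [hx]
      exact div_block hm _ _ (by omega) (by omega)
    · conv_lhs => rw [hx]
      exact mod_block _ _ (by omega) (by omega)

/-- The block of a cell. -/
def blk (m : ℕ) (c : Cell) : Cell := (c.1 / m, c.2 / m)

/-- The polyomino scaled by the factor `m`. -/
def scale (m : ℕ) (P : Finset Cell) : Finset Cell :=
  P.biUnion fun q => (Finset.range m ×ˢ Finset.range m).image
    fun t => ((m : ℤ) * q.1 + t.1, (m : ℤ) * q.2 + t.2)

theorem mem_scale {m : ℕ} (hm : 0 < m) {P : Finset Cell} {c : Cell} :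
    c ∈ scale m P ↔ blk m c ∈ P := by
  unfold scale blk
  simp only [Finset.mem_biUnion, Finset.mem_image, Finset.mem_product, Finset.mem_range]
  constructor
  · rintro ⟨q, hq, t, ⟨h1, h2⟩, rfl⟩
    simp only
    rw [div_block hm _ _ (by omega) (by omega), div_block hm _ _ (by omega) (by omega)]
    exact hq
  · intro h
    have a0 := Int.emod_nonneg c.1 (show (m : ℤ) ≠ 0 by omega)
    have a1 := Int.emod_lt_of_pos c.1 (show (0 : ℤ) < m by omega)
    have b0 := Int.emod_nonneg c.2 (show (m : ℤ) ≠ 0 by omega)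
    have b1 := Int.emod_lt_of_pos c.2 (show (0 : ℤ) < m by omega)
    refine ⟨_, h, ((c.1 % m).toNat, (c.2 % m).toNat), ⟨by simp only; omega, by simp only; omega⟩, ?_⟩
    simp only [Int.toNat_of_nonneg a0, Int.toNat_of_nonneg b0, Int.mul_ediv_add_emod]

theorem scaled_connected {m : ℕ} (hm : 0 < m) {S : Set Cell} (hS : EdgeConnected S) :
    EdgeConnected {c | blk m c ∈ S} := by
  have hin : ∀ q ∈ S, ∀ r s : ℤ, 0 ≤ r → r < m → 0 ≤ s → s < m →
      (((m : ℤ) * q.1 + r, (m : ℤ) * q.2 + s) : Cell) ∈ {c | blk m c ∈ S} := by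
    intro q hq r s h1 h2 h3 h4
    show blk m _ ∈ S
    unfold blk
    simp only
    rw [div_block hm _ _ h1 h2, div_block hm _ _ h3 h4]
    exact hq
  have hrow : ∀ q ∈ S, ∀ r : ℕ, r < m → Reach {c | blk m c ∈ S} ((m : ℤ) * q.1, (m : ℤ) * q.2)
      ((m : ℤ) * q.1 + r, (m : ℤ) * q.2) := by
    intro q hq r
    induction r with
    | zero => intro _; simpa using Relation.ReflTransGen.refl
    | succ r ih =>
      intro hr
      refine Relation.ReflTransGen.tail (ih (by omega)) ⟨?_, ?_, ?_⟩
      · have := hin q hq r 0 (by omega) (by omega) (by omega) (by omega)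
        simpa using this
      · have := hin q hq (r + 1 : ℕ) 0 (by omega) (by omega) (by omega) (by omega)
        simpa using this
      · exact Or.inl ⟨rfl, Or.inl (by push_cast; ring)⟩
  have hblock : ∀ q ∈ S, ∀ r s : ℕ, r < m → s < m →
      Reach {c | blk m c ∈ S} ((m : ℤ) * q.1, (m : ℤ) * q.2)
      ((m : ℤ) * q.1 + r, (m : ℤ) * q.2 + s) := by
    intro q hq r s hr
    induction s with
    | zero => intro _; simpa using hrow q hq r hr
    | succ s ih =>
      intro hs
      refine Relation.ReflTransGen.tail (ih (by omega)) ⟨?_, ?_, ?_⟩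
      · exact hin q hq r s (by omega) (by omega) (by omega) (by omega)
      · exact hin q hq r (s + 1 : ℕ) (by omega) (by omega) (by omega) (by omega)
      · exact Or.inr ⟨rfl, Or.inl (by push_cast; ring)⟩
  have hright : ∀ x y : ℤ, (x, y) ∈ S → (x + 1, y) ∈ S →
      Reach {c | blk m c ∈ S} ((m : ℤ) * x, (m : ℤ) * y) ((m : ℤ) * (x + 1), (m : ℤ) * y) := by
    intro x y h1 h2
    have e1 := hrow (x, y) h1 (m - 1) (by omega)
    refine Relation.ReflTransGen.tail e1 ⟨?_, ?_, ?_⟩
    · have := hin (x, y) h1 ((m - 1 : ℕ) : ℤ) 0 (by omega) (by omega) (by omega) (by omega)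
      simpa using this
    · have := hin (x + 1, y) h2 0 0 (by omega) (by omega) (by omega) (by omega)
      simpa using this
    · have : (m : ℤ) * (x + 1) = (m : ℤ) * x + ((m - 1 : ℕ) : ℤ) + 1 := by
        rw [Nat.cast_sub (by omega)]; push_cast; ring
      exact Or.inl ⟨rfl, Or.inl this⟩
  have hup : ∀ x y : ℤ, (x, y) ∈ S → (x, y + 1) ∈ S →
      Reach {c | blk m c ∈ S} ((m : ℤ) * x, (m : ℤ) * y) ((m : ℤ) * x, (m : ℤ) * (y + 1)) := by
    intro x y h1 h2
    have e1 := hblock (x, y) h1 0 (m - 1) (by omega) (by omega)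
    refine Relation.ReflTransGen.tail e1 ⟨?_, ?_, ?_⟩
    · exact hin (x, y) h1 (0 : ℕ) ((m - 1 : ℕ) : ℤ) (by omega) (by omega) (by omega) (by omega)
    · have := hin (x, y + 1) h2 0 0 (by omega) (by omega) (by omega) (by omega)
      simpa using this
    · have : (m : ℤ) * (y + 1) = (m : ℤ) * y + ((m - 1 : ℕ) : ℤ) + 1 := by
        rw [Nat.cast_sub (by omega)]; push_cast; ring
      exact Or.inr ⟨by simp, Or.inl this⟩
  have hadj : ∀ q r : Cell, q ∈ S → r ∈ S → Adjacent q r →
      Reach {c | blk m c ∈ S} ((m : ℤ) * q.1, (m : ℤ) * q.2) ((m : ℤ) * r.1, (m : ℤ) * r.2) := by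
    rintro ⟨x, y⟩ ⟨x', y'⟩ hq hr h
    unfold Adjacent at h
    simp only at h ⊢
    rcases h with ⟨rfl, rfl | rfl⟩ | ⟨rfl, rfl | rfl⟩
    · exact hright _ _ hq hr
    · exact (hright _ _ hr hq).symm
    · exact hup _ _ hq hr
    · exact (hup _ _ hr hq).symm
  have hlift : ∀ q r : Cell, Reach S q r →
      Reach {c | blk m c ∈ S} ((m : ℤ) * q.1, (m : ℤ) * q.2) ((m : ℤ) * r.1, (m : ℤ) * r.2) := by
    intro q r h
    induction h with
    | refl => exact Relation.ReflTransGen.refl
    | tail _ h ih => exact Relation.ReflTransGen.trans ih (hadj _ _ h.1 h.2.1 h.2.2)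
  have hcell : ∀ c ∈ {c | blk m c ∈ S},
      Reach {c | blk m c ∈ S} ((m : ℤ) * (blk m c).1, (m : ℤ) * (blk m c).2) c := by
    intro c hc
    have a0 := Int.emod_nonneg c.1 (show (m : ℤ) ≠ 0 by omega)
    have a1 := Int.emod_lt_of_pos c.1 (show (0 : ℤ) < m by omega)
    have b0 := Int.emod_nonneg c.2 (show (m : ℤ) ≠ 0 by omega)
    have b1 := Int.emod_lt_of_pos c.2 (show (0 : ℤ) < m by omega)
    have := hblock (blk m c) hc (c.1 % m).toNat (c.2 % m).toNat (by omega) (by omega)
    rw [Int.toNat_of_nonneg a0, Int.toNat_of_nonneg b0] at this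
    have e : ((((m : ℤ) * (blk m c).1 + c.1 % m, (m : ℤ) * (blk m c).2 + c.2 % m)) : Cell) = c := by
      unfold blk
      simp only [Int.mul_ediv_add_emod]
    rwa [e] at this
  intro c hc d hd
  exact Relation.ReflTransGen.trans (hcell c hc).symm
    (Relation.ReflTransGen.trans (hlift _ _ (hS _ hc _ hd)) (hcell d hd))

theorem scale_isPolyomino {m : ℕ} (hm : 0 < m) {P : Finset Cell} (h : IsPolyomino P) :
    IsPolyomino (scale m P) := by
  obtain ⟨⟨q, hq⟩, h1, h2, h3, h4⟩ := h
  refine ⟨?_, ?_, ?_, ?_, ?_⟩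
  · refine ⟨((m : ℤ) * q.1, (m : ℤ) * q.2), ?_⟩
    rw [mem_scale hm]
    unfold blk
    have e1 := div_block hm q.1 0 le_rfl (by omega)
    have e2 := div_block hm q.2 0 le_rfl (by omega)
    rw [add_zero] at e1 e2
    simp only [e1, e2]
    exact hq
  · have := scaled_connected hm h1
    have e : ((scale m P : Finset Cell) : Set Cell) = {c | blk m c ∈ (P : Set Cell)} := by
      ext c
      exact mem_scale hm
    rw [e]; exact this
  · intro x y k1 k2
    rw [mem_scale hm] at *
    unfold blk at *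
    simp only at *
    rcases succ_cases hm x with ⟨_, ex, _⟩ | ⟨_, ex, _⟩
    · right; rw [mem_scale hm]; unfold blk; simp only; rwa [ex] at k2
    · rcases succ_cases hm y with ⟨_, ey, _⟩ | ⟨_, ey, _⟩
      · left; rwa [ey] at k2
      · rw [ex, ey] at k2
        rcases h2 _ _ k1 k2 with h | h
        · left; rwa [ex]
        · right; rw [mem_scale hm]; unfold blk; simp only; rwa [ey]
  · intro x y k1 k2
    rw [mem_scale hm] at *
    unfold blk at *
    simp only at *
    rcases succ_cases hm x with ⟨_, ex, _⟩ | ⟨_, ex, _⟩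
    · left; rwa [ex] at k1
    · rcases succ_cases hm y with ⟨_, ey, _⟩ | ⟨_, ey, _⟩
      · left; rwa [ey] at k2
      · rw [ex] at k1
        rw [ey] at k2
        rcases h3 _ _ k1 k2 with h | h
        · left; exact h
        · right; rw [mem_scale hm]; unfold blk; simp only; rwa [ex, ey]
  · have := scaled_connected hm h4
    have e : {c : Cell | c ∉ scale m P} = {c | blk m c ∈ {c : Cell | c ∉ P}} := by
      ext c
      show c ∉ scale m P ↔ blk m c ∉ P
      rw [mem_scale hm]
    rw [e]; exact this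

/-! ## Scaling a folding -/

/-- The scaled folding. -/
def scaleF (m : ℕ) (f : Cell → Placement) (c : Cell) : Placement :=
  ⟨((m : ℤ) * (f (blk m c)).p.1 + (c.1 % m) * (f (blk m c)).u.1 + (c.2 % m) * (f (blk m c)).v.1,
    (m : ℤ) * (f (blk m c)).p.2.1 + (c.1 % m) * (f (blk m c)).u.2.1 +
      (c.2 % m) * (f (blk m c)).v.2.1,
    (m : ℤ) * (f (blk m c)).p.2.2 + (c.1 % m) * (f (blk m c)).u.2.2 +
      (c.2 % m) * (f (blk m c)).v.2.2), (f (blk m c)).u, (f (blk m c)).v⟩

/-- The `24` possible pairs of directions. -/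
theorem iso_cases {t : Placement} (h : t.Isometric) :
    ((t.u = (1, 0, 0) ∨ t.u = (-1, 0, 0)) ∧ (t.v = (0, 1, 0) ∨ t.v = (0, -1, 0))) ∨
    ((t.u = (1, 0, 0) ∨ t.u = (-1, 0, 0)) ∧ (t.v = (0, 0, 1) ∨ t.v = (0, 0, -1))) ∨
    ((t.u = (0, 1, 0) ∨ t.u = (0, -1, 0)) ∧ (t.v = (1, 0, 0) ∨ t.v = (-1, 0, 0))) ∨
    ((t.u = (0, 1, 0) ∨ t.u = (0, -1, 0)) ∧ (t.v = (0, 0, 1) ∨ t.v = (0, 0, -1))) ∨
    ((t.u = (0, 0, 1) ∨ t.u = (0, 0, -1)) ∧ (t.v = (1, 0, 0) ∨ t.v = (-1, 0, 0))) ∨
    ((t.u = (0, 0, 1) ∨ t.u = (0, 0, -1)) ∧ (t.v = (0, 1, 0) ∨ t.v = (0, -1, 0))) := by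
  obtain ⟨h1, h2, h3, h4⟩ := h
  simp only [unitVectors, List.mem_cons, List.not_mem_nil, or_false] at h1 h2
  rcases h1 with h1 | h1 | h1 | h1 | h1 | h1 <;> rw [h1] at h3 h4 ⊢ <;>
    rcases h2 with h2 | h2 | h2 | h2 | h2 | h2 <;> rw [h2] at h3 h4 ⊢ <;>
    first
      | exact absurd rfl h3
      | (exfalso; revert h4; decide)
      | simp

/-- The condition on one coordinate: `C` is the coordinate of (twice) the centre of a square and
`D` the deviation of the centre of one of its small squares. -/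
def Dev (m : ℕ) (C D : ℤ) : Prop :=
  (C % 2 = 0 → D = 0) ∧ -(m : ℤ) < D ∧ D < m ∧ (C % 2 = 1 → (D + m + 1) % 2 = 0)

theorem dev_of_iso {m : ℕ} (_hm : 0 < m) {t : Placement} (h : t.Isometric) {r s : ℤ} (h0 : 0 ≤ r)
    (h1 : r < m) (h2 : 0 ≤ s) (h3 : s < m) :
    Dev m t.center.1 ((2 * r + 1 - m) * t.u.1 + (2 * s + 1 - m) * t.v.1) ∧
    Dev m t.center.2.1 ((2 * r + 1 - m) * t.u.2.1 + (2 * s + 1 - m) * t.v.2.1) ∧
    Dev m t.center.2.2 ((2 * r + 1 - m) * t.u.2.2 + (2 * s + 1 - m) * t.v.2.2) := by
  unfold Placement.center Dev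
  rcases iso_cases h with ⟨hu | hu, hv | hv⟩ | ⟨hu | hu, hv | hv⟩ | ⟨hu | hu, hv | hv⟩ |
    ⟨hu | hu, hv | hv⟩ | ⟨hu | hu, hv | hv⟩ | ⟨hu | hu, hv | hv⟩ <;> rw [hu, hv] <;>
    simp only [mul_one, mul_zero, add_zero, zero_add, mul_neg] <;>
    refine ⟨⟨?_, ?_, ?_, ?_⟩, ⟨?_, ?_, ?_, ?_⟩, ⟨?_, ?_, ?_, ?_⟩⟩ <;>
    first
      | omega
      | exact fun _ => trivial

theorem iso_of_dev {m : ℕ} {t : Placement} (h : t.Isometric) {D1 D2 D3 : ℤ}
    (h1 : Dev m t.center.1 D1) (h2 : Dev m t.center.2.1 D2) (h3 : Dev m t.center.2.2 D3) :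
    ∃ r s : ℤ, 0 ≤ r ∧ r < m ∧ 0 ≤ s ∧ s < m ∧
      D1 = (2 * r + 1 - m) * t.u.1 + (2 * s + 1 - m) * t.v.1 ∧
      D2 = (2 * r + 1 - m) * t.u.2.1 + (2 * s + 1 - m) * t.v.2.1 ∧
      D3 = (2 * r + 1 - m) * t.u.2.2 + (2 * s + 1 - m) * t.v.2.2 := by
  unfold Placement.center Dev at h1 h2 h3
  simp only at h1 h2 h3
  obtain ⟨a1, a2, a3, a4⟩ := h1
  obtain ⟨b1, b2, b3, b4⟩ := h2
  obtain ⟨c1, c2, c3, c4⟩ := h3
  rcases iso_cases h with ⟨hu | hu, hv | hv⟩ | ⟨hu | hu, hv | hv⟩ | ⟨hu | hu, hv | hv⟩ |
    ⟨hu | hu, hv | hv⟩ | ⟨hu | hu, hv | hv⟩ | ⟨hu | hu, hv | hv⟩ <;>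
    rw [hu, hv] at a1 a4 b1 b4 c1 c4 ⊢ <;>
    simp only [mul_one, mul_zero, add_zero, zero_add, mul_neg] at a1 a4 b1 b4 c1 c4 ⊢
  · exact ⟨(D1 + m - 1) / 2, (D2 + m - 1) / 2, by omega, by omega, by omega, by omega, by omega,
      by omega, by omega⟩
  · exact ⟨(D1 + m - 1) / 2, (-D2 + m - 1) / 2, by omega, by omega, by omega, by omega, by omega,
      by omega, by omega⟩
  · exact ⟨(-D1 + m - 1) / 2, (D2 + m - 1) / 2, by omega, by omega, by omega, by omega, by omega,
      by omega, by omega⟩
  · exact ⟨(-D1 + m - 1) / 2, (-D2 + m - 1) / 2, by omega, by omega, by omega, by omega, by omega,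
      by omega, by omega⟩
  · exact ⟨(D1 + m - 1) / 2, (D3 + m - 1) / 2, by omega, by omega, by omega, by omega, by omega,
      by omega, by omega⟩
  · exact ⟨(D1 + m - 1) / 2, (-D3 + m - 1) / 2, by omega, by omega, by omega, by omega, by omega,
      by omega, by omega⟩
  · exact ⟨(-D1 + m - 1) / 2, (D3 + m - 1) / 2, by omega, by omega, by omega, by omega, by omega,
      by omega, by omega⟩
  · exact ⟨(-D1 + m - 1) / 2, (-D3 + m - 1) / 2, by omega, by omega, by omega, by omega, by omega,
      by omega, by omega⟩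
  · exact ⟨(D2 + m - 1) / 2, (D1 + m - 1) / 2, by omega, by omega, by omega, by omega, by omega,
      by omega, by omega⟩
  · exact ⟨(D2 + m - 1) / 2, (-D1 + m - 1) / 2, by omega, by omega, by omega, by omega, by omega,
      by omega, by omega⟩
  · exact ⟨(-D2 + m - 1) / 2, (D1 + m - 1) / 2, by omega, by omega, by omega, by omega, by omega,
      by omega, by omega⟩
  · exact ⟨(-D2 + m - 1) / 2, (-D1 + m - 1) / 2, by omega, by omega, by omega, by omega, by omega,
      by omega, by omega⟩
  · exact ⟨(D2 + m - 1) / 2, (D3 + m - 1) / 2, by omega, by omega, by omega, by omega, by omega,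
      by omega, by omega⟩
  · exact ⟨(D2 + m - 1) / 2, (-D3 + m - 1) / 2, by omega, by omega, by omega, by omega, by omega,
      by omega, by omega⟩
  · exact ⟨(-D2 + m - 1) / 2, (D3 + m - 1) / 2, by omega, by omega, by omega, by omega, by omega,
      by omega, by omega⟩
  · exact ⟨(-D2 + m - 1) / 2, (-D3 + m - 1) / 2, by omega, by omega, by omega, by omega, by omega,
      by omega, by omega⟩
  · exact ⟨(D3 + m - 1) / 2, (D1 + m - 1) / 2, by omega, by omega, by omega, by omega, by omega,
      by omega, by omega⟩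
  · exact ⟨(D3 + m - 1) / 2, (-D1 + m - 1) / 2, by omega, by omega, by omega, by omega, by omega,
      by omega, by omega⟩
  · exact ⟨(-D3 + m - 1) / 2, (D1 + m - 1) / 2, by omega, by omega, by omega, by omega, by omega,
      by omega, by omega⟩
  · exact ⟨(-D3 + m - 1) / 2, (-D1 + m - 1) / 2, by omega, by omega, by omega, by omega, by omega,
      by omega, by omega⟩
  · exact ⟨(D3 + m - 1) / 2, (D2 + m - 1) / 2, by omega, by omega, by omega, by omega, by omega,
      by omega, by omega⟩
  · exact ⟨(D3 + m - 1) / 2, (-D2 + m - 1) / 2, by omega, by omega, by omega, by omega, by omega,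
      by omega, by omega⟩
  · exact ⟨(-D3 + m - 1) / 2, (D2 + m - 1) / 2, by omega, by omega, by omega, by omega, by omega,
      by omega, by omega⟩
  · exact ⟨(-D3 + m - 1) / 2, (-D2 + m - 1) / 2, by omega, by omega, by omega, by omega, by omega,
      by omega, by omega⟩

theorem dev_end {m n : ℕ} {C D : ℤ} (h : Dev m C D) (hC : IsEnd n C) :
    IsEnd (m * n) (m * C + D) := by
  unfold IsEnd at *
  obtain ⟨h1, -⟩ := h
  rcases hC with rfl | rfl
  · left; rw [h1 (by omega)]; ring
  · right; rw [h1 (by omega)]; push_cast; ring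

theorem dev_mid {m n : ℕ} {C D : ℤ} (h : Dev m C D) (hC : IsMid n C) :
    IsMid (m * n) (m * C + D) := by
  unfold IsMid at *
  obtain ⟨-, h2, h3, h4⟩ := h
  obtain ⟨k1, k2, k3⟩ := hC
  obtain ⟨k, rfl⟩ : ∃ k, C = 2 * k + 1 := ⟨C / 2, by omega⟩
  have e : (m : ℤ) * (2 * k + 1) = 2 * (m * k) + m := by ring
  have hk : 0 ≤ (m : ℤ) * k := mul_nonneg (by omega) (by omega)
  have hk2 : (m : ℤ) * k ≤ m * (n - 1) := mul_le_mul_of_nonneg_left (by omega) (by omega)
  have e2 : (m : ℤ) * (n - 1) = m * n - m := by ring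
  have h5 := h4 k3
  push_cast
  rw [e]
  refine ⟨by omega, ?_, by omega⟩
  have : 2 * ((m : ℤ) * n) = 2 * (m * n) := rfl
  omega

theorem scaleF_center (m : ℕ) (f : Cell → Placement) (c : Cell) :
    (scaleF m f c).center =
      ((m : ℤ) * (f (blk m c)).center.1 + ((2 * (c.1 % m) + 1 - m) * (f (blk m c)).u.1 +
        (2 * (c.2 % m) + 1 - m) * (f (blk m c)).v.1),
      (m : ℤ) * (f (blk m c)).center.2.1 + ((2 * (c.1 % m) + 1 - m) * (f (blk m c)).u.2.1 +
        (2 * (c.2 % m) + 1 - m) * (f (blk m c)).v.2.1),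
      (m : ℤ) * (f (blk m c)).center.2.2 + ((2 * (c.1 % m) + 1 - m) * (f (blk m c)).u.2.2 +
        (2 * (c.2 % m) + 1 - m) * (f (blk m c)).v.2.2)) := by
  unfold scaleF Placement.center
  simp only
  refine Prod.ext ?_ (Prod.ext ?_ ?_)
  · simp only; ring
  · simp only; ring
  · simp only; ring

theorem dev_inj {m : ℕ} {C D C' D' : ℤ} (h : Dev m C D) (h' : Dev m C' D')
    (e : (m : ℤ) * C + D = m * C' + D') : C = C' ∧ D = D' := by
  obtain ⟨a1, a2, a3, -⟩ := h
  obtain ⟨b1, b2, b3, -⟩ := h'
  have e1 : (m : ℤ) * (C - C') = D' - D := by linarith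
  have hm : (0 : ℤ) < m := by omega
  have k1 : C - C' < 2 := by
    by_contra hc
    have : (m : ℤ) * 2 ≤ m * (C - C') := mul_le_mul_of_nonneg_left (by omega) (by omega)
    omega
  have k2 : -2 < C - C' := by
    by_contra hc
    have : (m : ℤ) * (C - C') ≤ m * (-2) := mul_le_mul_of_nonneg_left (by omega) (by omega)
    omega
  have k3 : C - C' = -1 ∨ C - C' = 0 ∨ C - C' = 1 := by omega
  rcases k3 with k | k | k
  · exfalso
    rw [k] at e1
    by_cases hp : C % 2 = 0
    · have := a1 hp; omega
    · have := b1 (by omega); omega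
  · rw [k] at e1
    constructor
    · omega
    · omega
  · exfalso
    rw [k] at e1
    by_cases hp : C % 2 = 0
    · have := a1 hp; omega
    · have := b1 (by omega); omega

theorem dir_inj {t : Placement} (h : t.Isometric) {r s r' s' : ℤ} {m : ℕ}
    (e1 : (2 * r + 1 - m) * t.u.1 + (2 * s + 1 - m) * t.v.1 =
      (2 * r' + 1 - m) * t.u.1 + (2 * s' + 1 - m) * t.v.1)
    (e2 : (2 * r + 1 - m) * t.u.2.1 + (2 * s + 1 - m) * t.v.2.1 =
      (2 * r' + 1 - m) * t.u.2.1 + (2 * s' + 1 - m) * t.v.2.1)
    (e3 : (2 * r + 1 - m) * t.u.2.2 + (2 * s + 1 - m) * t.v.2.2 =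
      (2 * r' + 1 - m) * t.u.2.2 + (2 * s' + 1 - m) * t.v.2.2) : r = r' ∧ s = s' := by
  rcases iso_cases h with ⟨hu | hu, hv | hv⟩ | ⟨hu | hu, hv | hv⟩ | ⟨hu | hu, hv | hv⟩ |
    ⟨hu | hu, hv | hv⟩ | ⟨hu | hu, hv | hv⟩ | ⟨hu | hu, hv | hv⟩ <;>
    rw [hu, hv] at e1 e2 e3 <;>
    simp only [mul_one, mul_zero, add_zero, zero_add, mul_neg] at e1 e2 e3 <;> omega

theorem mid_down {m n : ℕ} (hm : 0 < m) {x : ℤ} (h : IsMid (m * n) x) :
    ∃ C D : ℤ, IsMid n C ∧ Dev m C D ∧ x = m * C + D := by
  unfold IsMid at *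
  obtain ⟨h1, h2, h3⟩ := h
  have e := Int.mul_ediv_add_emod x (2 * m)
  have r0 := Int.emod_nonneg x (show (2 * m : ℤ) ≠ 0 by omega)
  have r1 := Int.emod_lt_of_pos x (show (0 : ℤ) < 2 * m by omega)
  set X := x / (2 * m) with hX
  set ρ := x % (2 * m) with hρ
  have e' : 2 * ((m : ℤ) * X) + ρ = x := by rw [← e]; ring
  have hX0 : 0 ≤ X := by
    by_contra hc
    have : (m : ℤ) * X ≤ m * (-1) := mul_le_mul_of_nonneg_left (by omega) (by omega)
    omega
  have hX1 : X < n := by
    by_contra hc
    have : (m : ℤ) * n ≤ m * X := mul_le_mul_of_nonneg_left (by omega) (by omega)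
    push_cast at h2
    omega
  refine ⟨2 * X + 1, ρ - m, ⟨by omega, by omega, by omega⟩, ⟨by omega, by omega, by omega,
    by omega⟩, ?_⟩
  rw [← e']; ring

theorem end_down {m n : ℕ} (hm : 0 < m) {x : ℤ} (h : IsEnd (m * n) x) :
    ∃ C D : ℤ, IsEnd n C ∧ Dev m C D ∧ x = m * C + D := by
  unfold IsEnd at *
  rcases h with rfl | rfl
  · exact ⟨0, 0, Or.inl rfl, ⟨by omega, by omega, by omega, by omega⟩, by ring⟩
  · exact ⟨2 * n, 0, Or.inr rfl, ⟨by omega, by omega, by omega, by omega⟩, by push_cast; ring⟩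

theorem scale_isFolding {m : ℕ} (hm : 0 < m) {P : Finset Cell} {n : ℕ} {f : Cell → Placement}
    (h : IsFolding P n f) : IsFolding (scale m P) (m * n) (scaleF m f) := by
  have bound : ∀ z : ℤ, 0 ≤ z % m ∧ z % m < m := fun z =>
    ⟨Int.emod_nonneg z (by omega), Int.emod_lt_of_pos z (by omega)⟩
  refine ⟨?_, ?_, ?_, ?_, ?_, ?_⟩
  · intro q hq
    exact h.isometric _ ((mem_scale hm).mp hq)
  · intro q hq
    have hq' := (mem_scale hm).mp hq
    have hd := dev_of_iso hm (h.isometric _ hq') (bound q.1).1 (bound q.1).2 (bound q.2).1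
      (bound q.2).2
    rw [scaleF_center]
    rcases h.surface _ hq' with ⟨k1, k2, k3⟩ | ⟨k1, k2, k3⟩ | ⟨k1, k2, k3⟩
    · exact Or.inl ⟨dev_end hd.1 k1, dev_mid hd.2.1 k2, dev_mid hd.2.2 k3⟩
    · exact Or.inr (Or.inl ⟨dev_mid hd.1 k1, dev_end hd.2.1 k2, dev_mid hd.2.2 k3⟩)
    · exact Or.inr (Or.inr ⟨dev_mid hd.1 k1, dev_mid hd.2.1 k2, dev_end hd.2.2 k3⟩)
  · intro x y k1 k2
    rw [mem_scale hm] at k1 k2
    have hi := h.isometric _ k1
    unfold scaleF blk at *
    simp only at *
    rcases succ_cases hm x with ⟨_, e1, e2⟩ | ⟨e0, e1, e2⟩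
    · rw [e1, e2]
      refine ⟨?_, rfl, ?_⟩
      · refine Prod.ext ?_ (Prod.ext ?_ ?_) <;> simp only [Prod.fst_add, Prod.snd_add] <;> ring
      · intro hc
        rcases iso_cases hi with ⟨hu | hu, hv⟩ | ⟨hu | hu, hv⟩ | ⟨hu | hu, hv⟩ |
          ⟨hu | hu, hv⟩ | ⟨hu | hu, hv⟩ | ⟨hu | hu, hv⟩ <;> rw [hu] at hc <;>
          revert hc <;> decide
    · rw [e1] at k2
      obtain ⟨g1, g2, g3⟩ := h.right _ _ k1 k2
      rw [e1, e2, g1, g2]
      refine ⟨?_, rfl, g3⟩
      have e0' : (m : ℤ) = x % m + 1 := e0.symm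
      refine Prod.ext ?_ (Prod.ext ?_ ?_) <;> simp only [Prod.fst_add, Prod.snd_add]
      · have : (m : ℤ) * ((f (x / m, y / m)).p.1 + (f (x / m, y / m)).u.1) =
          m * (f (x / m, y / m)).p.1 + (x % m + 1) * (f (x / m, y / m)).u.1 := by rw [e0]; ring
        rw [this]; ring
      · have : (m : ℤ) * ((f (x / m, y / m)).p.2.1 + (f (x / m, y / m)).u.2.1) =
          m * (f (x / m, y / m)).p.2.1 + (x % m + 1) * (f (x / m, y / m)).u.2.1 := by rw [e0]; ring
        rw [this]; ring
      · have : (m : ℤ) * ((f (x / m, y / m)).p.2.2 + (f (x / m, y / m)).u.2.2) =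
          m * (f (x / m, y / m)).p.2.2 + (x % m + 1) * (f (x / m, y / m)).u.2.2 := by rw [e0]; ring
        rw [this]; ring
  · intro x y k1 k2
    rw [mem_scale hm] at k1 k2
    have hi := h.isometric _ k1
    unfold scaleF blk at *
    simp only at *
    rcases succ_cases hm y with ⟨_, e1, e2⟩ | ⟨e0, e1, e2⟩
    · rw [e1, e2]
      refine ⟨?_, rfl, ?_⟩
      · refine Prod.ext ?_ (Prod.ext ?_ ?_) <;> simp only [Prod.fst_add, Prod.snd_add] <;> ring
      · intro hc
        rcases iso_cases hi with ⟨hu, hv | hv⟩ | ⟨hu, hv | hv⟩ | ⟨hu, hv | hv⟩ |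
          ⟨hu, hv | hv⟩ | ⟨hu, hv | hv⟩ | ⟨hu, hv | hv⟩ <;> rw [hv] at hc <;>
          revert hc <;> decide
    · rw [e1] at k2
      obtain ⟨g1, g2, g3⟩ := h.up _ _ k1 k2
      rw [e1, e2, g1, g2]
      refine ⟨?_, rfl, g3⟩
      refine Prod.ext ?_ (Prod.ext ?_ ?_) <;> simp only [Prod.fst_add, Prod.snd_add]
      · have : (m : ℤ) * ((f (x / m, y / m)).p.1 + (f (x / m, y / m)).v.1) =
          m * (f (x / m, y / m)).p.1 + (y % m + 1) * (f (x / m, y / m)).v.1 := by rw [e0]; ring
        rw [this]; ring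
      · have : (m : ℤ) * ((f (x / m, y / m)).p.2.1 + (f (x / m, y / m)).v.2.1) =
          m * (f (x / m, y / m)).p.2.1 + (y % m + 1) * (f (x / m, y / m)).v.2.1 := by rw [e0]; ring
        rw [this]; ring
      · have : (m : ℤ) * ((f (x / m, y / m)).p.2.2 + (f (x / m, y / m)).v.2.2) =
          m * (f (x / m, y / m)).p.2.2 + (y % m + 1) * (f (x / m, y / m)).v.2.2 := by rw [e0]; ring
        rw [this]; ring
  · intro q hq r hr hqr
    have hq' := (mem_scale hm).mp hq
    have hr' := (mem_scale hm).mp hr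
    have dq := dev_of_iso hm (h.isometric _ hq') (bound q.1).1 (bound q.1).2 (bound q.2).1
      (bound q.2).2
    have dr := dev_of_iso hm (h.isometric _ hr') (bound r.1).1 (bound r.1).2 (bound r.2).1
      (bound r.2).2
    rw [scaleF_center, scaleF_center] at hqr
    have i1 := dev_inj dq.1 dr.1 (congrArg Prod.fst hqr)
    have i2 := dev_inj dq.2.1 dr.2.1 (congrArg (fun z : Vec => z.2.1) hqr)
    have i3 := dev_inj dq.2.2 dr.2.2 (congrArg (fun z : Vec => z.2.2) hqr)
    have hb : blk m q = blk m r :=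
      h.injective _ hq' _ hr' (Prod.ext i1.1 (Prod.ext i2.1 i3.1))
    rw [← hb] at i1 i2 i3
    obtain ⟨j1, j2⟩ := dir_inj (h.isometric _ hq') i1.2 i2.2 i3.2
    have b1 : q.1 / m = r.1 / m := congrArg Prod.fst hb
    have b2 : q.2 / m = r.2 / m := congrArg Prod.snd hb
    refine Prod.ext ?_ ?_
    · rw [← Int.mul_ediv_add_emod q.1 m, ← Int.mul_ediv_add_emod r.1 m, b1, j1]
    · rw [← Int.mul_ediv_add_emod q.2 m, ← Int.mul_ediv_add_emod r.2 m, b2, j2]
  · intro s hs
    obtain ⟨C1, C2, C3, D1, D2, D3, hC, d1, d2, d3, e1, e2, e3⟩ : ∃ C1 C2 C3 D1 D2 D3 : ℤ,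
        IsSurfaceCenter n (C1, C2, C3) ∧ Dev m C1 D1 ∧ Dev m C2 D2 ∧ Dev m C3 D3 ∧
        s.1 = m * C1 + D1 ∧ s.2.1 = m * C2 + D2 ∧ s.2.2 = m * C3 + D3 := by
      rcases hs with ⟨k1, k2, k3⟩ | ⟨k1, k2, k3⟩ | ⟨k1, k2, k3⟩
      · obtain ⟨C1, D1, c1, d1, e1⟩ := end_down hm k1
        obtain ⟨C2, D2, c2, d2, e2⟩ := mid_down hm k2
        obtain ⟨C3, D3, c3, d3, e3⟩ := mid_down hm k3
        exact ⟨C1, C2, C3, D1, D2, D3, Or.inl ⟨c1, c2, c3⟩, d1, d2, d3, e1, e2, e3⟩
      · obtain ⟨C1, D1, c1, d1, e1⟩ := mid_down hm k1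
        obtain ⟨C2, D2, c2, d2, e2⟩ := end_down hm k2
        obtain ⟨C3, D3, c3, d3, e3⟩ := mid_down hm k3
        exact ⟨C1, C2, C3, D1, D2, D3, Or.inr (Or.inl ⟨c1, c2, c3⟩), d1, d2, d3, e1, e2, e3⟩
      · obtain ⟨C1, D1, c1, d1, e1⟩ := mid_down hm k1
        obtain ⟨C2, D2, c2, d2, e2⟩ := mid_down hm k2
        obtain ⟨C3, D3, c3, d3, e3⟩ := end_down hm k3
        exact ⟨C1, C2, C3, D1, D2, D3, Or.inr (Or.inr ⟨c1, c2, c3⟩), d1, d2, d3, e1, e2, e3⟩
    obtain ⟨q, hq, hc⟩ := h.cover _ hC
    have hc1 : (f q).center.1 = C1 := by rw [hc]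
    have hc2 : (f q).center.2.1 = C2 := by rw [hc]
    have hc3 : (f q).center.2.2 = C3 := by rw [hc]
    rw [← hc1] at d1 e1
    rw [← hc2] at d2 e2
    rw [← hc3] at d3 e3
    obtain ⟨r, t, r0, r1, t0, t1, g1, g2, g3⟩ := iso_of_dev (h.isometric _ hq) d1 d2 d3
    have hb : blk m (((m : ℤ) * q.1 + r, (m : ℤ) * q.2 + t) : Cell) = q := by
      unfold blk
      simp only [div_block hm _ _ r0 r1, div_block hm _ _ t0 t1]
    refine ⟨((m : ℤ) * q.1 + r, (m : ℤ) * q.2 + t), (mem_scale hm).mpr (by rw [hb]; exact hq), ?_⟩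
    rw [scaleF_center, hb]
    simp only [mod_block _ _ r0 r1, mod_block _ _ t0 t1]
    refine Prod.ext ?_ (Prod.ext ?_ ?_)
    · simp only; rw [e1, g1]
    · simp only; rw [e2, g2]
    · simp only; rw [e3, g3]

theorem scale_twoPiece {m : ℕ} (hm : 0 < m) {a b c : ℕ} (h : TwoPiece a b c) :
    TwoPiece (m * a) (m * b) (m * c) := by
  obtain ⟨Pa, Pb, Pc, h1, h2, h3, h4, h5, ⟨fa, ha⟩, ⟨fb, hb⟩, ⟨fc, hc⟩⟩ := h
  refine ⟨scale m Pa, scale m Pb, scale m Pc, scale_isPolyomino hm h1, scale_isPolyomino hm h2,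
    scale_isPolyomino hm h3, ?_, ?_, ⟨_, scale_isFolding hm ha⟩, ⟨_, scale_isFolding hm hb⟩,
    ⟨_, scale_isFolding hm hc⟩⟩
  · rw [Finset.disjoint_left] at h4 ⊢
    intro q hq hq'
    exact h4 ((mem_scale hm).mp hq) ((mem_scale hm).mp hq')
  · ext q
    rw [Finset.mem_union, mem_scale hm, mem_scale hm, mem_scale hm, ← h5, Finset.mem_union]

/-! ## Certificates -/

/-- The digit number `k` of `R` in base `2 ^ b`. -/
def dig (b R k : ℕ) : ℕ := (R >>> (b * k)) % 2 ^ b

/-- The `k`-th unit vector. -/
def vecOf (k : ℕ) : Vec := unitVectors.getD (k - 1) (0, 0, 0)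

/-- A placement is stored as a number. -/
def decode (k : ℕ) : Placement :=
  ⟨((k / 2097152 : ℕ), (k / 65536 % 32 : ℕ), (k / 2048 % 32 : ℕ)), vecOf (k / 8 % 8), vecOf (k % 8)⟩

/-- A polyomino with a folding, stored row by row. -/
structure Cert where
  /-- the width of the box -/
  W : ℕ
  /-- the height of the box -/
  H : ℕ
  /-- the edge of the cube -/
  n : ℕ
  /-- the placements of the cells (zero for cells outside of the polyomino) -/
  code : List ℕ
  /-- distances -/
  rank : List ℕ
  /-- the inverse of the folding -/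
  inv : List ℕ
  /-- the root cell -/
  rx : ℕ
  /-- the root cell -/
  ry : ℕ

namespace Cert

variable (C : Cert)

/-- The code of a cell. -/
def d (x y : ℕ) : ℕ := dig 26 (C.code.getD y 0) x

/-- The rank of a cell. -/
def r (x y : ℕ) : ℕ := dig 12 (C.rank.getD y 0) x

/-- The polyomino. -/
def P : Finset Cell :=
  ((Finset.range C.W ×ˢ Finset.range C.H).filter (fun t => C.d t.1 t.2 ≠ 0)).image
    (fun t => ((t.1 : ℤ), (t.2 : ℤ)))

/-- The folding. -/
def F (c : Cell) : Placement := decode (C.d c.1.toNat c.2.toNat)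

/-- A key of a surface square. -/
def key (s : Vec) : ℕ × ℕ :=
  if s.1 = 0 then (0 * C.n + (s.2.1 / 2).toNat, (s.2.2 / 2).toNat)
  else if s.1 = 2 * C.n then (1 * C.n + (s.2.1 / 2).toNat, (s.2.2 / 2).toNat)
  else if s.2.1 = 0 then (2 * C.n + (s.1 / 2).toNat, (s.2.2 / 2).toNat)
  else if s.2.1 = 2 * C.n then (3 * C.n + (s.1 / 2).toNat, (s.2.2 / 2).toNat)
  else if s.2.2 = 0 then (4 * C.n + (s.1 / 2).toNat, (s.2.1 / 2).toNat)
  else (5 * C.n + (s.1 / 2).toNat, (s.2.1 / 2).toNat)

/-- The cell covering the surface square with key `k`. -/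
def cellOf (k : ℕ × ℕ) : ℕ := dig 16 (C.inv.getD k.1 0) k.2

/-- Twice the centre of the surface square `(i, j)` of the face `φ`. -/
def ctr (φ i j : ℕ) : Vec :=
  match φ with
  | 0 => (0, 2 * i + 1, 2 * j + 1)
  | 1 => (2 * C.n, 2 * i + 1, 2 * j + 1)
  | 2 => (2 * i + 1, 0, 2 * j + 1)
  | 3 => (2 * i + 1, 2 * C.n, 2 * j + 1)
  | 4 => (2 * i + 1, 2 * j + 1, 0)
  | _ => (2 * i + 1, 2 * j + 1, 2 * C.n)

instance (n : ℕ) (t : ℤ) : Decidable (IsEnd n t) := by unfold IsEnd; infer_instance

instance (n : ℕ) (t : ℤ) : Decidable (IsMid n t) := by unfold IsMid; infer_instance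

instance (n : ℕ) (s : Vec) : Decidable (IsSurfaceCenter n s) := by
  unfold IsSurfaceCenter; infer_instance

instance (t : Placement) : Decidable t.Isometric := by unfold Placement.Isometric; infer_instance

/-- The conditions on a cell of the polyomino. -/
def CellOK (x y : ℕ) : Prop :=
  (decode (C.d x y)).Isometric ∧ IsSurfaceCenter C.n (decode (C.d x y)).center ∧
  C.cellOf (C.key (decode (C.d x y)).center) = x + 128 * y ∧
  (C.d (x + 1) y = 0 ∨ ((decode (C.d (x + 1) y)).p = (decode (C.d x y)).p + (decode (C.d x y)).u ∧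
    (decode (C.d (x + 1) y)).v = (decode (C.d x y)).v ∧
    (decode (C.d (x + 1) y)).u ≠ -(decode (C.d x y)).u)) ∧
  (C.d x (y + 1) = 0 ∨ ((decode (C.d x (y + 1))).p = (decode (C.d x y)).p + (decode (C.d x y)).v ∧
    (decode (C.d x (y + 1))).u = (decode (C.d x y)).u ∧
    (decode (C.d x (y + 1))).v ≠ -(decode (C.d x y)).v)) ∧
  ((x = C.rx ∧ y = C.ry) ∨ (C.d (x + 1) y ≠ 0 ∧ C.r (x + 1) y < C.r x y) ∨
    (C.d x (y + 1) ≠ 0 ∧ C.r x (y + 1) < C.r x y) ∨
    (C.d (x - 1) y ≠ 0 ∧ C.r (x - 1) y < C.r x y) ∨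
    (C.d x (y - 1) ≠ 0 ∧ C.r x (y - 1) < C.r x y)) ∧
  (C.d (x + 1) (y + 1) = 0 ∨ C.d (x + 1) y ≠ 0 ∨ C.d x (y + 1) ≠ 0) ∧
  (C.d (x - 1) (y + 1) = 0 ∨ C.d (x - 1) y ≠ 0 ∨ C.d x (y + 1) ≠ 0)

/-- The conditions on a cell outside of the polyomino. -/
def OutOK (x y : ℕ) : Prop :=
  (C.d (x + 1) y = 0 ∧ C.r (x + 1) y < C.r x y) ∨
    (C.d x (y + 1) = 0 ∧ C.r x (y + 1) < C.r x y) ∨
    (C.d (x - 1) y = 0 ∧ C.r (x - 1) y < C.r x y) ∨
    (C.d x (y - 1) = 0 ∧ C.r x (y - 1) < C.r x y)

/-- The first part of the conditions. -/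
def OK1 : Prop :=
  C.W < 128 ∧ 0 < C.rx ∧ C.rx + 1 < C.W ∧ 0 < C.ry ∧ C.ry + 1 < C.H ∧ C.d C.rx C.ry ≠ 0

/-- The conditions on a cell. -/
def OK2 (x y : ℕ) : Prop :=
  (C.d x y = 0 ∧ (x = 0 ∨ x + 1 = C.W ∨ y = 0 ∨ y + 1 = C.H)) ∨
    (0 < x ∧ x + 1 < C.W ∧ 0 < y ∧ y + 1 < C.H ∧
      ((C.d x y = 0 ∧ C.OutOK x y) ∨ (C.d x y ≠ 0 ∧ C.CellOK x y)))

/-- The conditions on a surface square. -/
def OK3 (φ i j : ℕ) : Prop :=
  (C.cellOf (φ * C.n + i, j)) % 128 < C.W ∧ (C.cellOf (φ * C.n + i, j)) / 128 < C.H ∧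
    C.d ((C.cellOf (φ * C.n + i, j)) % 128) ((C.cellOf (φ * C.n + i, j)) / 128) ≠ 0 ∧
    (decode (C.d ((C.cellOf (φ * C.n + i, j)) % 128)
      ((C.cellOf (φ * C.n + i, j)) / 128))).center = C.ctr φ i j

instance (x y : ℕ) : Decidable (C.CellOK x y) := by unfold CellOK; infer_instance

instance (x y : ℕ) : Decidable (C.OutOK x y) := by unfold OutOK; infer_instance

instance : Decidable C.OK1 := by unfold OK1; infer_instance

instance (x y : ℕ) : Decidable (C.OK2 x y) := by unfold OK2; infer_instance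

instance (φ i j : ℕ) : Decidable (C.OK3 φ i j) := by unfold OK3; infer_instance

/-- The certificate is correct. -/
def OK : Prop :=
  C.OK1 ∧ (∀ y < C.H, ∀ x < C.W, C.OK2 x y) ∧ (∀ φ < 6, ∀ i < C.n, ∀ j < C.n, C.OK3 φ i j)

instance : Decidable C.OK := by unfold OK; infer_instance

variable {C}

theorem mem_P {x y : ℤ} : (x, y) ∈ C.P ↔
    ∃ i j : ℕ, i < C.W ∧ j < C.H ∧ C.d i j ≠ 0 ∧ x = i ∧ y = j := by
  unfold P
  simp only [Finset.mem_image, Finset.mem_filter, Finset.mem_product, Finset.mem_range,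
    Prod.exists, Prod.mk.injEq]
  constructor
  · rintro ⟨i, j, ⟨⟨h1, h2⟩, h3⟩, h4, h5⟩
    exact ⟨i, j, h1, h2, h3, h4.symm, h5.symm⟩
  · rintro ⟨i, j, h1, h2, h3, h4, h5⟩
    exact ⟨i, j, ⟨⟨h1, h2⟩, h3⟩, h4.symm, h5.symm⟩

theorem F_eq (i j : ℕ) : C.F ((i : ℤ), (j : ℤ)) = decode (C.d i j) := by
  unfold F
  simp only [Int.toNat_natCast]

theorem interior (h : C.OK) {i j : ℕ} (hi : i < C.W) (hj : j < C.H) (hd : C.d i j ≠ 0) :
    0 < i ∧ i + 1 < C.W ∧ 0 < j ∧ j + 1 < C.H ∧ C.CellOK i j := by
  rcases h.2.1 j hj i hi with ⟨h1, _⟩ | ⟨h1, h2, h3, h4, ⟨h5, _⟩ | ⟨_, h6⟩⟩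
  · exact absurd h1 hd
  · exact absurd h5 hd
  · exact ⟨h1, h2, h3, h4, h6⟩

theorem mem_P_nat {i j : ℕ} (hi : i < C.W) (hj : j < C.H) :
    ((i : ℤ), (j : ℤ)) ∈ C.P ↔ C.d i j ≠ 0 := by
  rw [mem_P]
  constructor
  · rintro ⟨i', j', _, _, h, e1, e2⟩
    rwa [Int.ofNat_inj.mp e1, Int.ofNat_inj.mp e2]
  · intro h
    exact ⟨i, j, hi, hj, h, rfl, rfl⟩

theorem isFolding (h : C.OK) : IsFolding C.P C.n C.F := by
  refine ⟨?_, ?_, ?_, ?_, ?_, ?_⟩
  · rintro ⟨x, y⟩ hq
    obtain ⟨i, j, hi, hj, hd, rfl, rfl⟩ := mem_P.mp hq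
    rw [F_eq]
    exact (interior h hi hj hd).2.2.2.2.1
  · rintro ⟨x, y⟩ hq
    obtain ⟨i, j, hi, hj, hd, rfl, rfl⟩ := mem_P.mp hq
    rw [F_eq]
    exact (interior h hi hj hd).2.2.2.2.2.1
  · intro x y hq hr
    obtain ⟨i, j, hi, hj, hd, rfl, rfl⟩ := mem_P.mp hq
    obtain ⟨i', j', hi', hj', hd', e1, e2⟩ := mem_P.mp hr
    have e3 : i' = i + 1 := by omega
    have e4 : j' = j := by omega
    subst e3 e4
    have e5 : (((i : ℤ) + 1, (j' : ℤ)) : Cell) = (((i + 1 : ℕ) : ℤ), (j' : ℤ)) := by push_cast; rfl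
    rw [e5, F_eq, F_eq]
    rcases (interior h hi hj hd).2.2.2.2.2.2.2.1 with k | k
    · exact absurd k hd'
    · exact k
  · intro x y hq hr
    obtain ⟨i, j, hi, hj, hd, rfl, rfl⟩ := mem_P.mp hq
    obtain ⟨i', j', hi', hj', hd', e1, e2⟩ := mem_P.mp hr
    have e3 : i' = i := by omega
    have e4 : j' = j + 1 := by omega
    subst e3 e4
    have e5 : (((i' : ℤ), (j : ℤ) + 1) : Cell) = ((i' : ℤ), ((j + 1 : ℕ) : ℤ)) := by push_cast; rfl
    rw [e5, F_eq, F_eq]
    rcases (interior h hi hj hd).2.2.2.2.2.2.2.2.1 with k | k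
    · exact absurd k hd'
    · exact k
  · rintro ⟨x, y⟩ hq ⟨x', y'⟩ hr hqr
    obtain ⟨i, j, hi, hj, hd, rfl, rfl⟩ := mem_P.mp hq
    obtain ⟨i', j', hi', hj', hd', rfl, rfl⟩ := mem_P.mp hr
    rw [F_eq, F_eq] at hqr
    have k1 := (interior h hi hj hd).2.2.2.2.2.2.1
    have k2 := (interior h hi' hj' hd').2.2.2.2.2.2.1
    rw [hqr, k2] at k1
    have hW := h.1.1
    have e1 : i = i' := by omega
    have e2 : j = j' := by omega
    rw [e1, e2]
  · rintro ⟨X, Y, Z⟩ hs
    have key : ∀ φ < 6, ∀ i < C.n, ∀ j < C.n, ∃ q ∈ C.P, (C.F q).center = C.ctr φ i j := by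
      intro φ hφ i hi j hj
      obtain ⟨k1, k2, k3, k4⟩ := h.2.2 φ hφ i hi j hj
      refine ⟨_, (mem_P_nat k1 k2).mpr k3, ?_⟩
      rw [F_eq]; exact k4
    rcases hs with ⟨h1 | h1, ⟨h2, h3, h4⟩, ⟨h5, h6, h7⟩⟩ |
      ⟨⟨h2, h3, h4⟩, h1 | h1, ⟨h5, h6, h7⟩⟩ | ⟨⟨h2, h3, h4⟩, ⟨h5, h6, h7⟩, h1 | h1⟩ <;>
      simp only at h1 h2 h3 h4 h5 h6 h7
    · obtain ⟨q, hq, e⟩ := key 0 (by norm_num) (Y / 2).toNat (by omega) (Z / 2).toNat (by omega)
      refine ⟨q, hq, e.trans ?_⟩
      simp only [ctr]
      refine Prod.ext ?_ (Prod.ext ?_ ?_) <;> simp only <;> omega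
    · obtain ⟨q, hq, e⟩ := key 1 (by norm_num) (Y / 2).toNat (by omega) (Z / 2).toNat (by omega)
      refine ⟨q, hq, e.trans ?_⟩
      simp only [ctr]
      refine Prod.ext ?_ (Prod.ext ?_ ?_) <;> simp only <;> omega
    · obtain ⟨q, hq, e⟩ := key 2 (by norm_num) (X / 2).toNat (by omega) (Z / 2).toNat (by omega)
      refine ⟨q, hq, e.trans ?_⟩
      simp only [ctr]
      refine Prod.ext ?_ (Prod.ext ?_ ?_) <;> simp only <;> omega
    · obtain ⟨q, hq, e⟩ := key 3 (by norm_num) (X / 2).toNat (by omega) (Z / 2).toNat (by omega)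
      refine ⟨q, hq, e.trans ?_⟩
      simp only [ctr]
      refine Prod.ext ?_ (Prod.ext ?_ ?_) <;> simp only <;> omega
    · obtain ⟨q, hq, e⟩ := key 4 (by norm_num) (X / 2).toNat (by omega) (Y / 2).toNat (by omega)
      refine ⟨q, hq, e.trans ?_⟩
      simp only [ctr]
      refine Prod.ext ?_ (Prod.ext ?_ ?_) <;> simp only <;> omega
    · obtain ⟨q, hq, e⟩ := key 5 (by norm_num) (X / 2).toNat (by omega) (Y / 2).toNat (by omega)
      refine ⟨q, hq, e.trans ?_⟩
      simp only [ctr]
      refine Prod.ext ?_ (Prod.ext ?_ ?_) <;> simp only <;> omega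

end Cert

theorem reach_row {S : Set Cell} (y : ℤ) (h : ∀ x : ℤ, (x, y) ∈ S) (x x' : ℤ) :
    Reach S (x, y) (x', y) := by
  have key : ∀ (n : ℕ) (x : ℤ), Reach S (x, y) (x + n, y) := by
    intro n
    induction n with
    | zero => intro x; simpa using Relation.ReflTransGen.refl
    | succ n ih =>
      intro x
      exact Relation.ReflTransGen.tail (ih x) ⟨h _, h _, Or.inl ⟨rfl, Or.inl (by push_cast; ring)⟩⟩
  rcases le_total x x' with hx | hx
  · have := key (x' - x).toNat x
    rwa [Int.toNat_of_nonneg (by omega), add_sub_cancel] at this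
  · have := key (x - x').toNat x'
    rw [Int.toNat_of_nonneg (by omega), add_sub_cancel] at this
    exact this.symm

theorem reach_col {S : Set Cell} (x : ℤ) (h : ∀ y : ℤ, (x, y) ∈ S) (y y' : ℤ) :
    Reach S (x, y) (x, y') := by
  have key : ∀ (n : ℕ) (y : ℤ), Reach S (x, y) (x, y + n) := by
    intro n
    induction n with
    | zero => intro y; simpa using Relation.ReflTransGen.refl
    | succ n ih =>
      intro y
      exact Relation.ReflTransGen.tail (ih y) ⟨h _, h _, Or.inr ⟨rfl, Or.inl (by push_cast; ring)⟩⟩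
  rcases le_total y y' with hx | hx
  · have := key (y' - y).toNat y
    rwa [Int.toNat_of_nonneg (by omega), add_sub_cancel] at this
  · have := key (y - y').toNat y'
    rw [Int.toNat_of_nonneg (by omega), add_sub_cancel] at this
    exact this.symm

namespace Cert

variable {C : Cert}

theorem reach_P (h : C.OK) : ∀ (N i j : ℕ), C.r i j < N → i < C.W → j < C.H → C.d i j ≠ 0 →
    Reach (C.P : Set Cell) ((C.rx : ℤ), (C.ry : ℤ)) ((i : ℤ), (j : ℤ)) := by
  intro N
  induction N with
  | zero => intro i j h; omega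
  | succ N ih =>
    intro i j hN hi hj hd
    obtain ⟨h1, h2, h3, h4, hc⟩ := interior h hi hj hd
    have hm : (((i : ℤ), (j : ℤ)) : Cell) ∈ (C.P : Set Cell) := (mem_P_nat hi hj).mpr hd
    rcases hc.2.2.2.2.2.1 with ⟨rfl, rfl⟩ | ⟨k1, k2⟩ | ⟨k1, k2⟩ | ⟨k1, k2⟩ | ⟨k1, k2⟩
    · exact Relation.ReflTransGen.refl
    · refine Relation.ReflTransGen.tail (ih (i + 1) j (by omega) (by omega) hj k1)
        ⟨(mem_P_nat (by omega) hj).mpr k1, hm, Or.inl ⟨rfl, Or.inr (by push_cast; ring)⟩⟩
    · refine Relation.ReflTransGen.tail (ih i (j + 1) (by omega) hi (by omega) k1)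
        ⟨(mem_P_nat hi (by omega)).mpr k1, hm, Or.inr ⟨rfl, Or.inr (by push_cast; ring)⟩⟩
    · refine Relation.ReflTransGen.tail (ih (i - 1) j (by omega) (by omega) hj k1)
        ⟨(mem_P_nat (by omega) hj).mpr k1, hm, Or.inl ⟨rfl, Or.inl (by omega)⟩⟩
    · refine Relation.ReflTransGen.tail (ih i (j - 1) (by omega) hi (by omega) k1)
        ⟨(mem_P_nat hi (by omega)).mpr k1, hm, Or.inr ⟨rfl, Or.inl (by omega)⟩⟩

theorem connected_P (h : C.OK) : EdgeConnected (C.P : Set Cell) := by
  have key : ∀ c ∈ (C.P : Set Cell), Reach (C.P : Set Cell) ((C.rx : ℤ), (C.ry : ℤ)) c := by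
    rintro ⟨x, y⟩ hc
    obtain ⟨i, j, hi, hj, hd, rfl, rfl⟩ := mem_P.mp hc
    exact reach_P h _ i j (Nat.lt_succ_self _) hi hj hd
  exact fun c hc d hd => Relation.ReflTransGen.trans (key c hc).symm (key d hd)

theorem row_free (h : C.OK) {y : ℤ} (hy : y ≤ 0 ∨ (C.H : ℤ) ≤ y + 1) (x : ℤ) :
    (x, y) ∈ {c : Cell | c ∉ C.P} := by
  intro hc
  obtain ⟨i, j, hi, hj, hd, rfl, rfl⟩ := mem_P.mp hc
  have := interior h hi hj hd
  omega

theorem col_free (h : C.OK) {x : ℤ} (hx : x ≤ 0 ∨ (C.W : ℤ) ≤ x + 1) (y : ℤ) :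
    (x, y) ∈ {c : Cell | c ∉ C.P} := by
  intro hc
  obtain ⟨i, j, hi, hj, hd, rfl, rfl⟩ := mem_P.mp hc
  have := interior h hi hj hd
  omega

theorem reach_border (h : C.OK) {x y : ℤ}
    (hb : x ≤ 0 ∨ (C.W : ℤ) ≤ x + 1 ∨ y ≤ 0 ∨ (C.H : ℤ) ≤ y + 1) :
    Reach {c : Cell | c ∉ C.P} (0, 0) (x, y) := by
  by_cases hy : y ≤ 0 ∨ (C.H : ℤ) ≤ y + 1
  · exact Relation.ReflTransGen.trans (reach_col 0 (col_free h (by omega)) 0 y)
      (reach_row y (row_free h hy) 0 x)
  · exact Relation.ReflTransGen.trans (reach_row 0 (row_free h (by omega)) 0 x)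
      (reach_col x (col_free h (by omega)) 0 y)

theorem reach_out (h : C.OK) : ∀ (N i j : ℕ), C.r i j < N → i < C.W → j < C.H → C.d i j = 0 →
    Reach {c : Cell | c ∉ C.P} (0, 0) ((i : ℤ), (j : ℤ)) := by
  intro N
  induction N with
  | zero => intro i j h; omega
  | succ N ih =>
    intro i j hN hi hj hd
    have hm : ∀ i j : ℕ, i < C.W → j < C.H → C.d i j = 0 →
        (((i : ℤ), (j : ℤ)) : Cell) ∈ {c : Cell | c ∉ C.P} := by
      intro i j hi hj hd hc
      exact (mem_P_nat hi hj).mp hc hd
    rcases h.2.1 j hj i hi with ⟨_, hb⟩ | ⟨h1, h2, h3, h4, ⟨_, hc⟩ | ⟨h5, _⟩⟩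
    · exact reach_border h (by omega)
    · rcases hc with ⟨k1, k2⟩ | ⟨k1, k2⟩ | ⟨k1, k2⟩ | ⟨k1, k2⟩
      · refine Relation.ReflTransGen.tail (ih (i + 1) j (by omega) (by omega) hj k1)
          ⟨hm _ _ (by omega) hj k1, hm _ _ hi hj hd, Or.inl ⟨rfl, Or.inr (by push_cast; ring)⟩⟩
      · refine Relation.ReflTransGen.tail (ih i (j + 1) (by omega) hi (by omega) k1)
          ⟨hm _ _ hi (by omega) k1, hm _ _ hi hj hd, Or.inr ⟨rfl, Or.inr (by push_cast; ring)⟩⟩
      · refine Relation.ReflTransGen.tail (ih (i - 1) j (by omega) (by omega) hj k1)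
          ⟨hm _ _ (by omega) hj k1, hm _ _ hi hj hd, Or.inl ⟨rfl, Or.inl (by omega)⟩⟩
      · refine Relation.ReflTransGen.tail (ih i (j - 1) (by omega) hi (by omega) k1)
          ⟨hm _ _ hi (by omega) k1, hm _ _ hi hj hd, Or.inr ⟨rfl, Or.inl (by omega)⟩⟩
    · exact absurd hd h5

theorem connected_out (h : C.OK) : EdgeConnected {c : Cell | c ∉ C.P} := by
  have key : ∀ c ∈ {c : Cell | c ∉ C.P}, Reach {c : Cell | c ∉ C.P} (0, 0) c := by
    rintro ⟨x, y⟩ hc
    by_cases hb : x ≤ 0 ∨ (C.W : ℤ) ≤ x + 1 ∨ y ≤ 0 ∨ (C.H : ℤ) ≤ y + 1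
    · exact reach_border h hb
    · obtain ⟨i, rfl⟩ := Int.eq_ofNat_of_zero_le (show 0 ≤ x by omega)
      obtain ⟨j, rfl⟩ := Int.eq_ofNat_of_zero_le (show 0 ≤ y by omega)
      have hi : i < C.W := by omega
      have hj : j < C.H := by omega
      refine reach_out h _ i j (Nat.lt_succ_self _) hi hj ?_
      by_contra hd
      exact hc ((mem_P_nat hi hj).mpr hd)
  exact fun c hc d hd => Relation.ReflTransGen.trans (key c hc).symm (key d hd)

theorem isPolyomino (h : C.OK) : IsPolyomino C.P := by
  refine ⟨⟨((C.rx : ℤ), (C.ry : ℤ)), ?_⟩, connected_P h, ?_, ?_, connected_out h⟩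
  · obtain ⟨_, _, h2, _, h4, h5⟩ := h.1
    exact (mem_P_nat (by omega) (by omega)).mpr h5
  · intro x y h1 h2
    obtain ⟨i, j, hi, hj, hd, rfl, rfl⟩ := mem_P.mp h1
    obtain ⟨i', j', hi', hj', hd', e1, e2⟩ := mem_P.mp h2
    obtain ⟨a1, a2, a3, a4, a5⟩ := interior h hi hj hd
    have e3 : i' = i + 1 := by omega
    have e4 : j' = j + 1 := by omega
    subst e3 e4
    rcases a5.2.2.2.2.2.2.1 with k | k | k
    · exact absurd k hd'
    · left
      have := (mem_P_nat (C := C) (i := i + 1) (j := j) (by omega) hj).mpr k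
      push_cast at this; exact this
    · right
      have := (mem_P_nat (C := C) (i := i) (j := j + 1) hi (by omega)).mpr k
      push_cast at this; exact this
  · intro x y h1 h2
    obtain ⟨i, j, hi, hj, hd, e1, rfl⟩ := mem_P.mp h1
    obtain ⟨i', j', hi', hj', hd', rfl, e2⟩ := mem_P.mp h2
    obtain ⟨a1, a2, a3, a4, a5⟩ := interior h hi hj hd
    have e3 : i = i' + 1 := by omega
    have e4 : j' = j + 1 := by omega
    subst e3 e4
    rcases a5.2.2.2.2.2.2.2 with k | k | k
    · rw [Nat.add_sub_cancel] at k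
      exact absurd k hd'
    · left
      rw [Nat.add_sub_cancel] at k
      exact (mem_P_nat hi' hj).mpr k
    · right
      have := (mem_P_nat (C := C) (i := i' + 1) (j := j + 1) hi (by omega)).mpr k
      push_cast at this; exact this

end Cert

/-- The polyomino of `C` is divided into the polyominoes of `A` and `B`. -/
def Divides (A B C : Cert) : Prop :=
  A.W = C.W ∧ B.W = C.W ∧ A.H = C.H ∧ B.H = C.H ∧
  ∀ y < C.H, ∀ x < C.W, (A.d x y = 0 ∧ B.d x y = 0 ∧ C.d x y = 0) ∨
    (A.d x y ≠ 0 ∧ B.d x y = 0 ∧ C.d x y ≠ 0) ∨ (A.d x y = 0 ∧ B.d x y ≠ 0 ∧ C.d x y ≠ 0)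

instance (A B C : Cert) : Decidable (Divides A B C) := by unfold Divides; infer_instance

theorem twoPiece_of_cert {A B C : Cert} (hA : A.OK) (hB : B.OK) (hC : C.OK)
    (h : Divides A B C) : TwoPiece A.n B.n C.n := by
  obtain ⟨w1, w2, w3, w4, hd⟩ := h
  refine ⟨A.P, B.P, C.P, Cert.isPolyomino hA, Cert.isPolyomino hB, Cert.isPolyomino hC, ?_, ?_,
    ⟨_, Cert.isFolding hA⟩, ⟨_, Cert.isFolding hB⟩, ⟨_, Cert.isFolding hC⟩⟩
  · rw [Finset.disjoint_left]
    rintro ⟨x, y⟩ ha hb
    obtain ⟨i, j, hi, hj, ha', rfl, rfl⟩ := Cert.mem_P.mp ha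
    have hb' := (Cert.mem_P_nat (C := B) (i := i) (j := j) (by omega) (by omega)).mp hb
    rcases hd j (by omega) i (by omega) with ⟨k1, k2, k3⟩ | ⟨k1, k2, k3⟩ | ⟨k1, k2, k3⟩
    · exact ha' k1
    · exact hb' k2
    · exact ha' k1
  · ext ⟨x, y⟩
    rw [Finset.mem_union]
    constructor
    · rintro (hq | hq)
      · obtain ⟨i, j, hi, hj, ha, rfl, rfl⟩ := Cert.mem_P.mp hq
        rw [Cert.mem_P_nat (by omega) (by omega)]
        rcases hd j (by omega) i (by omega) with ⟨k1, k2, k3⟩ | ⟨k1, k2, k3⟩ | ⟨k1, k2, k3⟩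
        · exact absurd k1 ha
        · exact k3
        · exact k3
      · obtain ⟨i, j, hi, hj, ha, rfl, rfl⟩ := Cert.mem_P.mp hq
        rw [Cert.mem_P_nat (by omega) (by omega)]
        rcases hd j (by omega) i (by omega) with ⟨k1, k2, k3⟩ | ⟨k1, k2, k3⟩ | ⟨k1, k2, k3⟩
        · exact absurd k2 ha
        · exact k3
        · exact k3
    · intro hq
      obtain ⟨i, j, hi, hj, ha, rfl, rfl⟩ := Cert.mem_P.mp hq
      rw [Cert.mem_P_nat (C := A) (by omega) (by omega), Cert.mem_P_nat (C := B) (by omega) (by omega)]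
      rcases hd j hj i hi with ⟨k1, k2, k3⟩ | ⟨k1, k2, k3⟩ | ⟨k1, k2, k3⟩
      · exact absurd k3 ha
      · exact Or.inl k1
      · exact Or.inr k2

/-! ## The triple `(3, 4, 5)`

```
.......b..........
.......b.b........
.......bbbb.b.....
.......bbbbbb.....
.........bbbb.....
.........bbbb.....
.......bbbbbbb....
.......bbbbbbb....
........bbbbbb....
.........bbbb.....
........bbbbbb....
......abbbbbbbbbb.
......abbbbbbbbbb.
.aa.aaabbbbbbbbbb.
..aaaaabb.bbb.bbb.
.aaaaaab...b...bbb
aa.aaa..........b.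
....a.............
....aa............
..aaaa............
.aaaaa............
..aaaa............
...aaaaaa.........
...aaaaaaa........
...a..............
...a..............
```
-/

/-- The polyomino folding onto the cube of edge `3`. -/
def A5 : Cert where
  W := 20
  H := 28
  n := 3
  rx := 1
  ry := 10
  code :=
    [0, 0x23183200000000000000000000000000, 0x3183400000000000000000000000000,
     0x62002c108003022000c008003002083400840d002183400000000000000000000000000,
     0x104003021000c004003001083400440d001183400000000000000000000000000,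
     0x83100040c400183100460840000000000000000000, 0x20083108040c420183108460842218210000000000000,
     0x40083110040c440183110460840000000000000000000,
     0x60083318040cc00000000000000000000000000000000, 0x18440cc00000000000000000000000000000000,
     0x62083318840cc621833000000061101d1804074000000,
     0x18c008863083218c40c8631832188606861181a0000000000000,
     0x10c008843083210c40c843183210860680000000000000000000,
     0x8c008823083208c40c8000000088606821181a0000000000000,
     0xc0094000000000000000000000000000000000000000000000,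
     0xc2094000000000000000000000000000000000000000000000, 0, 0, 0, 0, 0, 0, 0, 0, 0, 0, 0, 0]
  rank :=
    [0, 0x1001001001001001001001001001001001001001010001001001000,
     0x100200200200200200200200200200200200200200f002002001000,
     0x100200300300300300300301201101000f00e00d00e003002001000,
     0x100200300400400400400400501000f00e00d00c00d003002001000,
     0x100200300400500500500500600700800900c00b00c00d002001000,
     0x100200300400500600600600700800900a00b00a00b00c00d001000,
     0x100200300400500600700700800900a00b00a00900a00b002001000,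
     0x100200300400500600700800900a00b00c009008004003002001000,
     0x100200300400500600700800900a00b00c00d007004003002001000,
     0x100200300400500600700800900a00b00c007006005004001000000,
     0x100200300400500600700800900a00b007006005004003002001000,
     0x100200300400500600700800900a00b008007006005004002001000,
     0x100200300400500600700800900a00b009008007005005006001000,
     0x100200300400500600700800900a00a00a006005004003002001000,
     0x100200300400500600700800900a00900b006005004003002001000,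
     0x1002003004005006007008009009008007006005004003002001000,
     0x1002003004005006007008009009008007006005004003002001000,
     0x1002003004005006007008009009008007006005004003002001000,
     0x1002003004005006007008008008008007006005004003002001000,
     0x1002003004005006007007007007007007006005004003002001000,
     0x1002003004005006006006006006006006006005004003002001000,
     0x1002003004005005005005005005005005005005004003002001000,
     0x1002003004004004004004004004004004004004004003002001000,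
     0x1002003003003003003003003003003003003003003003002001000,
     0x1002002002002002002002002002002002002002002002002001000,
     0x1001001001001001001001001001001001001001001001001001000, 0]
  inv :=
    [0x20402050206, 0x18401850186, 0x10407870707, 0x50104050406, 0x5020485018a, 0x50405050506,
     0x28402850286, 0x30403050306, 0x38403850386, 0x8406850686, 0x60406050606, 0x58405850586,
     0x68701870207, 0x60701880208, 0x58701890209, 0x68306820283, 0x60303020303, 0x58305820383]

/-- The polyomino folding onto the cube of edge `4`. -/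
def B5 : Cert where
  W := 20
  H := 28
  n := 4
  rx := 8
  ry := 11
  code :=
    [0, 0, 0, 0, 0, 0, 0, 0, 0, 0,
     0x4209400000000000000000000000000000000000000000000000000000000000000000000000000000000000000000000000000000000000000,
     0x100d00440940210250000000000000000000002102b0000000000000000000002101e0000000000000000000000000000000000000000000000000000,
     0x4609402182500c609400000000c60ac03102b00c20ac00000000c207802081e0000000000000000000000000000000000000000000000000000,
     0x4808402202100c808404202101060a404102901020a404002900c00640200190000000000000000000000000000000000000000000000000000,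
     0x84808422202108c808424202109060a424102909020a424002908c00642200190000000000000000000000000000000000000000000000000000,
     0x104808442202110c808444202111060a444102911020a444002910c00644200190000000000000000000000000000000000000000000000000000,
     0x64202119060a464102919020a464002918c00640000000000000000000000000000000000000000000000000000000000,
     0x21060b084102c21020b084002c00000000000000000000000000000000000000000000000000000000000000000,
     0x83201420c60b083102c20c20b083002c18c00300000000000000000000000000000000000000000000000000000000000,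
     0x82201420860b082102c20820b082002c188003042000c0000000000000000000000000000000000000000000000000000,
     0x81201420460b081102c20420b081002c184003041000c0000000000000000000000000000000000000000000000000000,
     0x20060a880102a20020a880002a00000000000000000000000000000000000000000000000000000000000000000,
     0x18060a860102a18020a860002a00000000000000000000000000000000000000000000000000000000000000000,
     0x10060a840102a10020a840002a10400884200220000000000000000000000000000000000000000000000000000,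
     0x8060a800000008020a820002a08400882200220000000000000000000000000000000000000000000000000000,
     0x2b00000000200250000000000000000000000000000000000000000000000000000,
     0x208250000000000000000000000000000000000000000000000000000, 0]
  rank :=
    [0, 0x1001001001001001001001001001001001001001001001001001000,
     0x1002002002002002002002002002002002002002002002002001000,
     0x1002003003003003003003003003003003003003003003002001000,
     0x1002003004004004004004004004004004004004004003002001000,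
     0x1002003004005005005005005005005005005005004003002001000,
     0x1002003004005006006006006006006006006005004003002001000,
     0x1002003004005006007007007007007007006005004003002001000,
     0x1002003004005006007008008008008007006005004003002001000,
     0x1002003004005006007008009009008007006005004003002001000,
     0x100e00400500600700800900a009008007006005004003002001000,
     0xe00d00c00600700800800a00b00a000007006005004003002001000,
     0x100c00b00a00800800700600c002001007006005004003002001000,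
     0x100b00a009008007006005004003002007006005004003002001000,
     0x100c00b00a009008007006005004003007006005004003002001000,
     0x100d00c00b00a009008007006005004007006005004003002001000,
     0x100200300400b00a009008007006008007006005004003002001000,
     0x100200300400500b00a009008009008007006005004003002001000,
     0x100200300400d00c00b00a00900a008007006005004003002001000,
     0x100200300400e00d00c00b00a00b00c007006005004003002001000,
     0x100200300400f00e00d00c00b00c00d007006005004003002001000,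
     0x100200300400500f00e00d00c008007006006005004003002001000,
     0x100200300400501000f00e00d007006005005005004003002001000,
     0x100200300400401101000f00e00f010004004004004003002001000,
     0x100200300300301200301000f010011003003003003003002001000,
     0x1002002002002002002002010002012002002002002002002001000,
     0x1001001001001001001001001001013001001001001001001001000, 0]
  inv :=
    [0x611059105110c8a, 0x61005900d080c88, 0x60f058c05880608, 0x60d060c060b0609, 0xa0d0a0c0a0b0a0a,
     0x98d098c098b098a, 0x90d090c090b090a, 0x88d088c088b088a, 0xc0d05920c0b0c0a, 0xb8d0b8c0b8b0b8a,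
     0xb0d0b0c0b0b0b0a, 0xa8d0a8c0a8b0a8a, 0x68d068c068b068a, 0x70d070c070b070a, 0x78d078c078b078a,
     0x80d080c080b080a, 0x68906880c080c09, 0x70907080b880b89, 0x789078809880a08, 0x809090909890a09,
     0x68e068f06900691, 0x70e070f07100711, 0x78e078f07900791, 0x80e090e098e0a0e]

/-- The polyomino folding onto the cube of edge `5`. -/
def C5 : Cert where
  W := 20
  H := 28
  n := 5
  rx := 1
  ry := 10
  code :=
    [0, 0x1182500000000000000000000000000, 0x1202500000000000000000000000000,
     0x1900020c400103100060c4002031000a0c401282100000000000000000000000000,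
     0x8020c420103108060c4202031080a0c421282100000000000000000000000000,
     0x402031100a0c4412821108a0840000000000000000000,
     0x602031180a0c4612821188a0846328210000000000000,
     0x802031200a0c4812821208a0840000000000000000000,
     0xa02033280a0cc00000000000000000000000000000000, 0x284a0cc00000000000000000000000000000000,
     0x28c40b000000000000000000000000000000000000000000000000000000000000000000a22033288a0cc82280b000000042280b088a02c000000,
     0xa2182c28840b0a2082c00000000000000000000a3102600000000000000000000a3103328c60cca3203328ca0cc83280b18ca02c43280b0000000000000,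
     0x28440b0a1082c28400b00000002882098a30826290209800000029020cca4103329060cca42033290a0cc84280b190a02c0000000000000000000,
     0x28040a8a0082a28000a8a100222880088a300222900088a5002229420c8a5103229460c8a52032294a0c8000000194a03845280e0000000000000,
     0x20040a880082a20000a88100222080088830022210008885002221420c885103221460c8000000000000000000000000000000000000000000000,
     0x18040a860082a18000a86100221880088630022190008865002219420c865103219460c8000000000000000000000000000000000000000000000,
     0x4100221080088430022110008845002211420c80000000000000000000000000000000000000000000000000000000000,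
     0x880088230022090008825002200000000000000000000000000000000000000000000000000000000000000000,
     0x100250080094030025010009405002509400540000000000000000000000000000000000000000000000000000000000,
     0x108250082094030825010209405082509420544508150000000000000000000000000000000000000000000000000000,
     0x110250084094031025010409405102509440544510150000000000000000000000000000000000000000000000000000,
     0x86094031825010609405182500000000000000000000000000000000000000000000000000000000000000000,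
     0x88094032025010809405202500000000000000000000000000000000000000000000000000000000000000000,
     0x8a084032821010a08405282101480a40518290000000000000000000000000000000000000000000000000000,
     0x88a084000000090a08425282109480a42518290000000000000000000000000000000000000000000000000000,
     0x45282100000004518290000000000000000000000000000000000000000000000000000,
     0x6518290000000000000000000000000000000000000000000000000000, 0]
  rank :=
    [0, 0x1001001001001001001001001001001001001001010001001001000,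
     0x100200200200200200200200200200200200200200f002002001000,
     0x100200300300300300300301201101000f00e00d00e003002001000,
     0x100200300400400400400400501000f00e00d00c00d003002001000,
     0x100200300400500500500500600700800900c00b00c00d002001000,
     0x100200300400500600600600700800900a00b00a00b00c00d001000,
     0x100200300400500600700700800900a00b00a00900a00b002001000,
     0x100200300400500600700800900a00b00c009008004003002001000,
     0x100200300400500600700800900a00b00c00d007004003002001000,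
     0x101600400500600700800900a00b00c00d007006005004001000000,
     0x1601501400600700801000a00b00c008007006005004003002001000,
     0x101401301200801000f00e00c00a009008007006005004002001000,
     0x101301201101000f00e00d00c00b00a009008007005005006001000,
     0x101401301201101000f00e00d00c00b00a006005004003002001000,
     0x101501401301201101000f00e00d00c00b006005004003002001000,
     0x100200300401301201101000f00e008007006005004003002001000,
     0x1002003004005013012011010009008007006005004003002001000,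
     0x1002003004015014013012011012008007006005004003002001000,
     0x1002003004016015014013012013014007006005004003002001000,
     0x1002003004017016015014013014015007006005004003002001000,
     0x1002003004005017016015014008007006006005004003002001000,
     0x1002003004005018017016015007006005005005004003002001000,
     0x1002003004004019018017016017018004004004004003002001000,
     0x100200300300301a003018017018019003003003003003002001000,
     0x100200200200200200200201800201a002002002002002002001000,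
     0x100100100100100100100100100101b001001001001001001001000, 0]
  inv :=
    [0x10400840a0e098e090e, 0xb0d0a8d0a0d098d090d, 0xb0c0a8c0a0c098c090c, 0xb0b0a8b0a0b098b090b,
     0xb0a0a8a0a0a098a090a, 0x405040606110610060f, 0x485059205910590060d, 0x50505060511058c060c,
     0x585058605870588060b, 0x6050606060706080609, 0x1850186018701880189, 0x2050206020702080209,
     0x285028607910790078f, 0x305030607110710070f, 0x385038606910690068f, 0xb890b880a0909890909,
     0xc090c080a0809880809, 0x6820c88078707880789, 0x6830d08070707080709, 0x6850686068706880689,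
     0x88a088b088c088d018a, 0x80a080b080c080d080e, 0x78a078b078c078d078e, 0x70a070b070c070d070e,
     0x68a068b068c068d068e, 0xb8a0b8b0b8c0b8d0184, 0xc0a0c0b05010c0d0204, 0xc8a0582050202830284,
     0x6030583030203030304, 0x6040584050403830384]

theorem okA5 : A5.OK := by decide +kernel

theorem okB5 : B5.OK := by decide +kernel

theorem okC5 : C5.OK := by decide +kernel

theorem divides5 : Divides A5 B5 C5 := by decide +kernel

theorem twoPiece5 : TwoPiece 3 4 5 := twoPiece_of_cert okA5 okB5 okC5 divides5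


/-! ## The theorem -/

/-- For all positive multiples `(3 m, 4 m, 5 m)` of the Pythagorean triple `(3, 4, 5)` there is a
polyomino which folds onto the cube of edge `5 m` and which is divided into two polyominoes folding
onto the cubes of edges `3 m` and `4 m`. -/
theorem result : ∀ m : ℕ, 0 < m → TwoPiece (m * 3) (m * 4) (m * 5) :=
  fun _ hm => scale_twoPiece hm twoPiece5

end Pool.Agent.Results.MP_4a7072_co.TwoPiece
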